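import Mathlib
import Pool.Agent.H32.DiracC

set_option autoImplicit false

namespace Pool.Agent.Results.MP_93b7f4_co.Counter

open SimpleGraph

/-- `G` is `k`-critical. -/
def Critical {V : Type} (G : SimpleGraph V) (k : ℕ) : Prop :=
  G.chromaticNumber = k ∧ ∀ H : G.Subgraph, H ≠ ⊤ → H.coe.chromaticNumber < k

/-- The graph of Dirac's construction: the union of the images of `G₁` and `G₂`, without the
edges `x y₁` and `x y₂`, with the new edge `y₁ y₂`. -/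
def dirac {V₁ V₂ V : Type} (G₁ : SimpleGraph V₁) (G₂ : SimpleGraph V₂) (f₁ : V₁ ↪ V) (f₂ : V₂ ↪ V)
    (x₁ y₁ : V₁) (x₂ y₂ : V₂) : SimpleGraph V :=
  (G₁.map f₁ ⊔ G₂.map f₂).deleteEdges {s(f₁ x₁, f₁ y₁), s(f₂ x₂, f₂ y₂)} ⊔ edge (f₁ y₁) (f₂ y₂)

theorem result : ∃ (k h n₁ n₂ n : ℕ) (G₁ : SimpleGraph (Fin n₁)) (G₂ : SimpleGraph (Fin n₂))
    (H₁ : Finset (Fin n₁)) (H₂ : Finset (Fin n₂)) (x₁ y₁ : Fin n₁) (x₂ y₂ : Fin n₂)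
    (f₁ : Fin n₁ ↪ Fin n) (f₂ : Fin n₂ ↪ Fin n),
    4 ≤ k ∧ 1 ≤ h ∧ h + 2 ≤ k ∧ Critical G₁ k ∧ Critical G₂ k ∧
    G₁.IsNClique h H₁ ∧ G₂.IsNClique h H₂ ∧ x₁ ∈ H₁ ∧ x₂ ∈ H₂ ∧ y₁ ∉ H₁ ∧ y₂ ∉ H₂ ∧
    G₁.Adj x₁ y₁ ∧ G₂.Adj x₂ y₂ ∧
    (∀ v, (∃ u, f₁ u = v) ∨ ∃ w, f₂ w = v) ∧ (∀ u w, f₁ u = f₂ w → u ∈ H₁ ∧ w ∈ H₂) ∧
    H₁.map f₁ = H₂.map f₂ ∧ f₁ x₁ = f₂ x₂ ∧
    ¬ Critical (dirac G₁ G₂ f₁ f₂ x₁ y₁ x₂ y₂) k := by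
  open Pool.Agent.H32.DiracC in
  have hc : G1.IsNClique 3 {0, 1, 2} := is3Clique_triple_iff.2 (by decide)
  refine ⟨5, 3, 10, 10, 17, G1, G1, {0, 1, 2}, {0, 1, 2}, 0, 3, 0, 3, f1, f2, by norm_num,
    by norm_num, by norm_num, ⟨chi, crit⟩, ⟨chi, crit⟩, hc, hc, by decide, by decide, by decide,
    by decide, by decide, by decide, by decide, by decide +kernel, by decide, by decide, fun h => ?_⟩
  have h1 := h.2 ((⊤ : (dirac G1 G1 f1 f2 0 3 0 3).Subgraph).deleteEdges {s(1, 2)}) (fun e => by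
    have h2 : (⊤ : (dirac G1 G1 f1 f2 0 3 0 3).Subgraph).Adj 1 2 :=
      Or.inl (deleteEdges_adj.2 ⟨Or.inl ((map_adj _ _ _ _).2 ⟨1, 2, by decide, rfl, rfl⟩), by
        simp only [Set.mem_insert_iff, Set.mem_singleton_iff]
        decide⟩)
    rw [← e] at h2
    simp at h2)
  obtain ⟨c⟩ := (chromaticNumber_le_iff_colorable (n := 4)).1 (Order.le_of_lt_add_one h1)
  refine noF (fun v => c ⟨v, trivial⟩) fun p hp => c.valid ?_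
  obtain ⟨h2, h3⟩ := edges p hp
  refine (Subgraph.deleteEdges_adj _ _ _).2 ⟨?_, h2⟩
  rcases h3 with ⟨h3, h4⟩ | rfl
  · exact Or.inl (deleteEdges_adj.2 ⟨h3.imp (map_adj _ _ _ _).2 (map_adj _ _ _ _).2,
      fun h5 => h5.elim h4.1 h4.2⟩)
  · exact Or.inr ((edge_adj _ _ _ _).2 (by decide))

end Pool.Agent.Results.MP_93b7f4_co.Counter
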